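import Pool.Agent.T6.H40.KN.Cnt

/-!
# Schemes and minors: complete graphs are not weakly contractible (helper40)
-/

set_option autoImplicit false

open Filter Topology

namespace Pool.Agent.T6.H40.KN

lemma log_le_sqrt {x : ℝ} (hx : 0 < x) : Real.log x ≤ 2 * √x := by
  have h1 := Real.log_sqrt hx.le
  have h2 := Real.log_le_sub_one_of_pos (Real.sqrt_pos.2 hx)
  linarith

lemma asy {c κ : ℝ} (hc : 0 < c) (hκ : 0 < κ) {t : ℕ} (ht : 1 ≤ t) :
    ∀ᶠ n : ℕ in atTop, ∀ P : ℕ, ⌊c * n⌋₊ * ⌊c * n⌋₊ ≤ 2 * P + ⌊c * n⌋₊ →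
      (n : ℝ) * Real.log (((⌊c * n⌋₊ + 1) * t : ℕ) : ℝ) < κ * P := by
  have h1 : ∀ᶠ n : ℕ in atTop, 4 / c ≤ (n : ℝ) :=
    tendsto_natCast_atTop_atTop.eventually_ge_atTop _
  have h2 : ∀ᶠ n : ℕ in atTop, 32 * √((c + 1) * t) / (κ * c ^ 2) < √(n : ℝ) :=
    (Real.tendsto_sqrt_atTop.comp tendsto_natCast_atTop_atTop).eventually_gt_atTop _
  filter_upwards [h1, h2, eventually_ge_atTop 1] with n h3 h4 h5 P hP
  set s := ⌊c * n⌋₊ with hs
  have hn1 : (1 : ℝ) ≤ n := by exact_mod_cast h5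
  have hn0 : (0 : ℝ) < n := by linarith
  have hcn : 4 ≤ c * n := by
    rw [div_le_iff₀ hc] at h3
    linarith
  have hs1 : (s : ℝ) ≤ c * n := Nat.floor_le (by positivity)
  have hs2 : c * n < s + 1 := Nat.lt_floor_add_one _
  have hP' : (s : ℝ) * s ≤ 2 * P + s := by exact_mod_cast hP
  have hP2 : c ^ 2 * n ^ 2 / 16 ≤ P := by
    have h6 : c * n / 2 ≤ s := by linarith
    have h7 : (2 : ℝ) ≤ s := by linarith
    nlinarith
  have ht0 : (1 : ℝ) ≤ t := by exact_mod_cast ht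
  have hx : (((s + 1) * t : ℕ) : ℝ) ≤ ((c + 1) * t) * n := by
    push_cast
    nlinarith
  have hx0 : (0 : ℝ) < (((s + 1) * t : ℕ) : ℝ) := by
    push_cast
    positivity
  have h6 : Real.log (((s + 1) * t : ℕ) : ℝ) ≤ 2 * (√((c + 1) * t) * √(n : ℝ)) := by
    refine (log_le_sqrt hx0).trans ?_
    rw [← Real.sqrt_mul (by positivity)]
    exact mul_le_mul_of_nonneg_left (Real.sqrt_le_sqrt hx) (by norm_num)
  have h7 : 32 * √((c + 1) * t) < √(n : ℝ) * (κ * c ^ 2) := by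
    rwa [div_lt_iff₀ (by positivity)] at h4
  have h8 : √(n : ℝ) * √(n : ℝ) = n := Real.mul_self_sqrt hn0.le
  have hsq : 0 < √(n : ℝ) := Real.sqrt_pos.2 hn0
  calc (n : ℝ) * Real.log (((s + 1) * t : ℕ) : ℝ)
      ≤ n * (2 * (√((c + 1) * t) * √(n : ℝ))) := mul_le_mul_of_nonneg_left h6 hn0.le
    _ = (32 * √((c + 1) * t)) * (n * √(n : ℝ) / 16) := by ring
    _ < (√(n : ℝ) * (κ * c ^ 2)) * (n * √(n : ℝ) / 16) :=
        mul_lt_mul_of_pos_right h7 (by positivity)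
    _ = κ * (c ^ 2 * (n * (√(n : ℝ) * √(n : ℝ))) / 16) := by ring
    _ = κ * (c ^ 2 * n ^ 2 / 16) := by rw [h8]; ring
    _ ≤ κ * P := mul_le_mul_of_nonneg_left hP2 hκ.le

lemma pow_lt {M X n P : ℕ} (hM : 2 ≤ M) (hX : 1 ≤ X)
    (h : (n : ℝ) * Real.log X < (Real.log M - Real.log ((M - 1 : ℕ) : ℝ)) * P) :
    X ^ n * (M - 1) ^ P < M ^ P := by
  have hM1 : (0 : ℝ) < ((M - 1 : ℕ) : ℝ) := by
    have : 0 < M - 1 := by omega
    exact_mod_cast this
  have hM0 : (0 : ℝ) < M := by positivity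
  have hX0 : (0 : ℝ) < X := by exact_mod_cast hX
  have h1 : Real.log ((X : ℝ) ^ n * ((M - 1 : ℕ) : ℝ) ^ P) < Real.log ((M : ℝ) ^ P) := by
    rw [Real.log_mul (by positivity) (by positivity), Real.log_pow, Real.log_pow, Real.log_pow]
    linarith
  have h2 := (Real.log_lt_log_iff (by positivity) (by positivity)).1 h1
  exact_mod_cast h2

/-- a minor of a larger complete graph -/
lemma minor_mono {V : Type} {G : SimpleGraph V} {m m' : ℕ} (h : m ≤ m')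
    (hm : HasMinor G (⊤ : SimpleGraph (Fin m'))) : HasMinor G (⊤ : SimpleGraph (Fin m)) := by
  obtain ⟨C, h1, h2, h3⟩ := hm
  refine ⟨fun i => C (Fin.castLE h i), fun u v huv => h1 _ _ ?_, fun v => h2 _, fun u v huv =>
    h3 _ _ ?_⟩
  · exact fun hh => huv (Fin.castLE_injective h hh)
  · rw [SimpleGraph.top_adj] at huv ⊢
    exact fun hh => huv (Fin.castLE_injective h hh)

theorem main_one {ε : ℝ} (hε : 0 < ε) : ∃ t : ℕ, ∃ n₀ : ℕ, ∀ n ≥ n₀,
    ∃ c : Fin n → Fin n → Fin t, ∀ m : ℕ, (1 / 2 + ε) * n ≤ m →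
      ¬ HasMinor (gr c) (⊤ : SimpleGraph (Fin m)) := by
  set t : ℕ := ⌈2 / ε⌉₊ + 2 with ht
  have ht2 : 2 ≤ t := by omega
  have htε : 2 / ε ≤ t := by
    have := Nat.le_ceil (2 / ε)
    rw [ht]
    push_cast
    linarith
  set K : ℕ := ⌈4 * ((t : ℝ) + 1) / ε⌉₊ with hK
  have hK0 : (0 : ℝ) < 4 * ((t : ℝ) + 1) / ε := by positivity
  have hK1 : 1 ≤ K := Nat.one_le_iff_ne_zero.2 (by
    rw [hK]
    exact (Nat.ceil_pos.2 hK0).ne')
  have hKε : 4 * ((t : ℝ) + 1) / ε ≤ K := Nat.le_ceil _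
  set c : ℝ := ε / (2 * (K * (t + 1))) with hc
  have ht0 : (0 : ℝ) < t := by positivity
  have hK0' : (0 : ℝ) < K := by exact_mod_cast hK1
  have hc0 : 0 < c := by positivity
  set M : ℕ := t ^ (2 * K ^ 2) with hM
  have hM2 : 2 ≤ M := by
    calc 2 = 2 ^ 1 := rfl
      _ ≤ t ^ 1 := Nat.pow_le_pow_left ht2 1
      _ ≤ t ^ (2 * K ^ 2) := Nat.pow_le_pow_right (by omega) (by nlinarith)
  have hκ : 0 < Real.log M - Real.log ((M - 1 : ℕ) : ℝ) := by
    have h1 : (0 : ℝ) < ((M - 1 : ℕ) : ℝ) := by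
      have : 0 < M - 1 := by omega
      exact_mod_cast this
    have h2 : ((M - 1 : ℕ) : ℝ) < (M : ℝ) := by
      have : M - 1 < M := by omega
      exact_mod_cast this
    have := Real.log_lt_log h1 h2
    linarith
  obtain ⟨n₀, hn₀⟩ := eventually_atTop.1 (asy hc0 hκ (t := t) (by omega))
  refine ⟨t, n₀, fun n hn => ?_⟩
  set s := ⌊c * n⌋₊ with hs
  set m₀ : ℕ := ⌈(1 / 2 + ε) * (n : ℝ)⌉₊ with hm₀
  have hnum : ∀ d l : ℕ, d * (2 * t) ≤ n * (t + 1) → l * (K + 1) ≤ n * (t + 1) →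
      s * (K * (t + 1)) + d + l ≤ m₀ := by
    intro d l hd hl
    have hd' : (d : ℝ) * (2 * t) ≤ n * (t + 1) := by exact_mod_cast hd
    have hl' : (l : ℝ) * (K + 1) ≤ n * (t + 1) := by exact_mod_cast hl
    have h1 : (d : ℝ) ≤ n / 2 + ε * n / 4 := by
      have h2 : (1 : ℝ) ≤ ε * t / 2 := by
        rw [div_le_iff₀ hε] at htε
        linarith
      have h3 : (d : ℝ) * (2 * t) ≤ (n / 2 + ε * n / 4) * (2 * t) := by
        have h4 : (n : ℝ) * 1 ≤ n * (ε * t / 2) := mul_le_mul_of_nonneg_left h2 (by positivity)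
        nlinarith
      exact le_of_mul_le_mul_right h3 (by positivity)
    have h5 : (l : ℝ) ≤ ε * n / 4 := by
      have h6 : 4 * ((t : ℝ) + 1) ≤ ε * K := by
        rw [div_le_iff₀ hε] at hKε
        linarith
      have h7 : (l : ℝ) * (K + 1) ≤ (ε * n / 4) * (K + 1) := by
        have h8 : (n : ℝ) * (4 * ((t : ℝ) + 1)) ≤ n * (ε * K) :=
          mul_le_mul_of_nonneg_left h6 (by positivity)
        have h9 : (0 : ℝ) ≤ ε * n := by positivity
        nlinarith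
      exact le_of_mul_le_mul_right h7 (by positivity)
    have h10 : (s : ℝ) * (K * (t + 1)) ≤ ε * n / 2 := by
      have h11 : (s : ℝ) ≤ c * n := Nat.floor_le (by positivity)
      have h12 : (s : ℝ) * (K * (t + 1)) ≤ (c * n) * (K * (t + 1)) :=
        mul_le_mul_of_nonneg_right h11 (by positivity)
      have h13 : (c * n) * (K * (t + 1)) = ε * n / 2 := by
        rw [hc]
        field_simp
      linarith
    have h14 : ((1 / 2 + ε) * (n : ℝ)) ≤ m₀ := Nat.le_ceil _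
    have h15 : ((s * (K * (t + 1)) + d + l : ℕ) : ℝ) ≤ m₀ := by
      push_cast
      nlinarith
    exact_mod_cast h15
  have hlt : ((s + 1) * t) ^ n * (M - 1) ^ (prs s).card < M ^ (prs s).card := by
    apply pow_lt hM2
    · have : 1 ≤ s + 1 := by omega
      exact Nat.mul_pos this (by omega)
    · exact hn₀ n hn _ (card_prs s)
  obtain ⟨f, hf⟩ := exists_good ht2 hK1 hnum hlt
  refine ⟨f, fun m hm hmin => hf (minor_mono ?_ hmin)⟩
  exact Nat.ceil_le.2 hm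

theorem main_two {ε : ℝ} (hε : 0 < ε) : ∃ A : ℕ, ∃ n₀ : ℕ, ∀ n ≥ n₀,
    ∃ (V : Type) (_ : Fintype V) (G : SimpleGraph V) (ι : Fin n ↪ V),
      Fintype.card V ≤ A * n ∧ HasScheme G (⊤ : SimpleGraph (Fin n)) ι ∧
      ∀ m : ℕ, (1 / 2 + ε) * n ≤ m → ¬ HasMinor G (⊤ : SimpleGraph (Fin m)) := by
  obtain ⟨t, n₀, h⟩ := main_one hε
  refine ⟨t + 1, n₀, fun n hn => ?_⟩
  obtain ⟨c, hc⟩ := h n hn
  refine ⟨Fin n × Option (Fin t), inferInstance, gr c, ter n t, ?_, scheme c, hc⟩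
  rw [Fintype.card_prod, Fintype.card_option, Fintype.card_fin, Fintype.card_fin, mul_comm]

theorem main_three : ∃ n₀ : ℕ, ∀ n ≥ n₀, ¬ WeaklyContractible (⊤ : SimpleGraph (Fin n)) := by
  obtain ⟨A, n₀, h⟩ := main_two (ε := 1 / 2) (by norm_num)
  refine ⟨n₀, fun n hn hw => ?_⟩
  obtain ⟨V, _, G, ι, -, hs, hm⟩ := h n hn
  exact hm n (by norm_num) (hw V G ι hs)

end Pool.Agent.T6.H40.KN
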