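import Pool.Agent.T6.H40.KN.Str

/-!
# Schemes and minors: counting (helper40)
-/

set_option autoImplicit false

open Finset
open scoped Classical

namespace Pool.Agent.T6.H40.KN

section

variable {n t s : ℕ}

/-- the functions which are different from the pattern `a` for all pairs of branch sets in `E` -/
noncomputable def av (f : Fin n → Option (Fin s)) (a : Fin n → Fin t)
    (E : Finset (Fin s × Fin s)) : Finset (Fin n → Fin n → Fin t) :=
  univ.filter (fun c => ∀ e ∈ E, ∃ i j, f i = some e.1 ∧ f j = some e.2 ∧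
    (c i j ≠ a i ∨ c j i ≠ a j))

lemma mem_av {f : Fin n → Option (Fin s)} {a : Fin n → Fin t} {E : Finset (Fin s × Fin s)}
    {c : Fin n → Fin n → Fin t} : c ∈ av f a E ↔ ∀ e ∈ E, ∃ i j, f i = some e.1 ∧
      f j = some e.2 ∧ (c i j ≠ a i ∨ c j i ≠ a j) := by
  simp [av]

/-- the coordinates of a pair of branch sets -/
def Qp (f : Fin n → Option (Fin s)) (e : Fin s × Fin s) (i j : Fin n) : Prop :=
  (f i = some e.1 ∧ f j = some e.2) ∨ (f i = some e.2 ∧ f j = some e.1)

lemma card_Qp {K : ℕ} {f : Fin n → Option (Fin s)}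
    (hf : ∀ r, (univ.filter (fun i => f i = some r)).card ≤ K) (e : Fin s × Fin s) :
    Fintype.card {x : Fin n × Fin n // Qp f e x.1 x.2} ≤ 2 * K ^ 2 := by
  rw [Fintype.card_subtype]
  set F1 := univ.filter (fun i => f i = some e.1) with hF1
  set F2 := univ.filter (fun i => f i = some e.2) with hF2
  have h1 : (univ.filter (fun x : Fin n × Fin n => Qp f e x.1 x.2)) ⊆
      (F1 ×ˢ F2) ∪ (F2 ×ˢ F1) := by
    intro x hx
    rw [mem_filter] at hx
    rw [mem_union, mem_product, mem_product, hF1, hF2]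
    simp only [mem_filter, mem_univ, true_and]
    exact hx.2
  have h2 := (card_le_card h1).trans (card_union_le _ _)
  rw [card_product, card_product] at h2
  have h3 := Nat.mul_le_mul (hf e.1) (hf e.2)
  have h4 := Nat.mul_le_mul (hf e.2) (hf e.1)
  rw [← hF1, ← hF2] at h3 h4
  nlinarith

lemma step {K : ℕ} (ht : 1 ≤ t) {f : Fin n → Option (Fin s)} (a : Fin n → Fin t)
    (hf : ∀ r, (univ.filter (fun i => f i = some r)).card ≤ K) {E : Finset (Fin s × Fin s)}
    (hE : ∀ e ∈ E, e.1 < e.2) {e : Fin s × Fin s} (he : e.1 < e.2) (heE : e ∉ E) :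
    (av f a (insert e E)).card * t ^ (2 * K ^ 2) ≤ (av f a E).card * (t ^ (2 * K ^ 2) - 1) := by
  set M := t ^ (2 * K ^ 2) with hM
  have hM1 : 1 ≤ M := Nat.one_le_pow _ _ ht
  have hsub : av f a (insert e E) ⊆ av f a E := by
    intro c hc
    rw [mem_av] at hc ⊢
    exact fun e' he' => hc e' (mem_insert_of_mem he')
  let φ : (Fin n → Fin n → Fin t) → (Fin n → Fin n → Fin t) :=
    fun c i j => if Qp f e i j then a i else c i j
  have himg : (av f a E).image φ ⊆ av f a E \ av f a (insert e E) := by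
    intro b hb
    obtain ⟨c, hc, rfl⟩ := mem_image.1 hb
    rw [mem_sdiff]
    constructor
    · rw [mem_av] at hc ⊢
      intro e' he'
      obtain ⟨i, j, hi, hj, hij⟩ := hc e' he'
      have hne : e' ≠ e := fun h => heE (h ▸ he')
      have hlt := hE e' he'
      have h1 : ¬ Qp f e i j := by
        rintro (⟨h1, h2⟩ | ⟨h1, h2⟩)
        · rw [hi, Option.some.injEq] at h1
          rw [hj, Option.some.injEq] at h2
          exact hne (Prod.ext h1 h2)
        · rw [hi, Option.some.injEq] at h1
          rw [hj, Option.some.injEq] at h2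
          rw [h1, h2] at hlt
          exact absurd he (not_lt.2 hlt.le)
      have h2 : ¬ Qp f e j i := fun h => h1 (h.symm.imp (fun h => ⟨h.2, h.1⟩)
        (fun h => ⟨h.2, h.1⟩))
      refine ⟨i, j, hi, hj, ?_⟩
      simp only [φ, if_neg h1, if_neg h2]
      exact hij
    · intro hcon
      rw [mem_av] at hcon
      obtain ⟨i, j, hi, hj, hij⟩ := hcon e (mem_insert_self _ _)
      have h1 : Qp f e i j := Or.inl ⟨hi, hj⟩
      have h2 : Qp f e j i := Or.inr ⟨hj, hi⟩
      simp only [φ, if_pos h1, if_pos h2, ne_eq, not_true_eq_false, or_self] at hij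
  have hfib : ∀ b ∈ (av f a E).image φ, ((av f a E).filter (fun c => φ c = b)).card ≤ M := by
    intro b _
    have h1 : ((av f a E).filter (fun c => φ c = b)).card ≤
        (univ : Finset ({x : Fin n × Fin n // Qp f e x.1 x.2} → Fin t)).card := by
      refine card_le_card_of_injOn (fun c q => c q.1.1 q.1.2) (fun _ _ => mem_univ _) ?_
      intro c1 h1 c2 h2 h12
      have hc1 : φ c1 = b := (mem_filter.1 (mem_coe.1 h1)).2
      have hc2 : φ c2 = b := (mem_filter.1 (mem_coe.1 h2)).2
      funext i j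
      by_cases hq : Qp f e i j
      · exact congrFun h12 ⟨(i, j), hq⟩
      · have h3 : φ c1 i j = φ c2 i j := by rw [hc1, hc2]
        simpa only [φ, if_neg hq] using h3
    rw [card_univ, Fintype.card_fun, Fintype.card_fin] at h1
    exact h1.trans (Nat.pow_le_pow_right ht (card_Qp hf e))
  have h1 := card_le_mul_card_image (av f a E) M hfib
  have h2 := card_le_card himg
  have h3 := card_sdiff_add_card_eq_card hsub
  have h4 : (av f a E).card ≤ M * (av f a E \ av f a (insert e E)).card :=
    h1.trans (Nat.mul_le_mul le_rfl h2)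
  obtain ⟨M', hM'⟩ : ∃ M', M = M' + 1 := ⟨M - 1, by omega⟩
  rw [hM'] at h4 ⊢
  rw [Nat.add_sub_cancel]
  nlinarith

lemma count {K : ℕ} (ht : 1 ≤ t) {f : Fin n → Option (Fin s)} (a : Fin n → Fin t)
    (hf : ∀ r, (univ.filter (fun i => f i = some r)).card ≤ K) (E : Finset (Fin s × Fin s))
    (hE : ∀ e ∈ E, e.1 < e.2) :
    (av f a E).card * (t ^ (2 * K ^ 2)) ^ E.card ≤
      Fintype.card (Fin n → Fin n → Fin t) * (t ^ (2 * K ^ 2) - 1) ^ E.card := by
  induction E using Finset.induction_on with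
  | empty =>
    simp only [card_empty, pow_zero, mul_one]
    exact card_le_univ _
  | insert e E heE ih =>
    have ih' := ih (fun e' he' => hE e' (mem_insert_of_mem he'))
    have h1 := step ht a hf (fun e' he' => hE e' (mem_insert_of_mem he'))
      (hE e (mem_insert_self _ _)) heE
    rw [card_insert_of_notMem heE, pow_succ (t ^ (2 * K ^ 2)) E.card,
      pow_succ (t ^ (2 * K ^ 2) - 1) E.card]
    calc (av f a (insert e E)).card * ((t ^ (2 * K ^ 2)) ^ E.card * t ^ (2 * K ^ 2))
        = ((av f a (insert e E)).card * t ^ (2 * K ^ 2)) * (t ^ (2 * K ^ 2)) ^ E.card := by ring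
      _ ≤ ((av f a E).card * (t ^ (2 * K ^ 2) - 1)) * (t ^ (2 * K ^ 2)) ^ E.card :=
          Nat.mul_le_mul h1 le_rfl
      _ = ((av f a E).card * (t ^ (2 * K ^ 2)) ^ E.card) * (t ^ (2 * K ^ 2) - 1) := by
          rw [mul_right_comm]
      _ ≤ (Fintype.card (Fin n → Fin n → Fin t) * (t ^ (2 * K ^ 2) - 1) ^ E.card) *
          (t ^ (2 * K ^ 2) - 1) := Nat.mul_le_mul ih' le_rfl
      _ = _ := by rw [mul_assoc]

/-- the pairs of branch sets -/
noncomputable def prs (s : ℕ) : Finset (Fin s × Fin s) := univ.filter (fun e => e.1 < e.2)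

lemma card_prs (s : ℕ) : s * s ≤ 2 * (prs s).card + s := by
  have h1 : (univ : Finset (Fin s × Fin s)) ⊆ prs s ∪ ((prs s).image Prod.swap ∪
      (univ : Finset (Fin s)).image (fun r => (r, r))) := by
    intro e _
    rw [mem_union, mem_union]
    rcases lt_trichotomy e.1 e.2 with h | h | h
    · left
      exact mem_filter.2 ⟨mem_univ _, h⟩
    · right; right
      exact mem_image.2 ⟨e.1, mem_univ _, Prod.ext rfl h⟩
    · right; left
      exact mem_image.2 ⟨(e.2, e.1), mem_filter.2 ⟨mem_univ _, h⟩, rfl⟩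
  have h2 := card_le_card h1
  have h3 := card_union_le (prs s) ((prs s).image Prod.swap ∪
      (univ : Finset (Fin s)).image (fun r => (r, r)))
  have h4 := card_union_le ((prs s).image Prod.swap)
      ((univ : Finset (Fin s)).image (fun r => (r, r)))
  have h5 : ((prs s).image Prod.swap).card ≤ (prs s).card := card_image_le
  have h6 : ((univ : Finset (Fin s)).image (fun r => (r, r))).card ≤ s := by
    refine card_image_le.trans ?_
    simp
  rw [card_univ, Fintype.card_prod, Fintype.card_fin] at h2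
  omega

/-- The union bound: some graph of Kempe paths has no complete minor on `m` vertices. -/
theorem exists_good {m K : ℕ} (ht : 2 ≤ t) (hK : 1 ≤ K)
    (hnum : ∀ d l : ℕ, d * (2 * t) ≤ n * (t + 1) → l * (K + 1) ≤ n * (t + 1) →
      s * (K * (t + 1)) + d + l ≤ m)
    (hlt : ((s + 1) * t) ^ n * (t ^ (2 * K ^ 2) - 1) ^ (prs s).card <
      (t ^ (2 * K ^ 2)) ^ (prs s).card) :
    ∃ c : Fin n → Fin n → Fin t, ¬ HasMinor (gr c) (⊤ : SimpleGraph (Fin m)) := by
  by_contra hcon
  push Not at hcon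
  set G : Finset ((Fin n → Option (Fin s)) × (Fin n → Fin t)) := univ.filter (fun x =>
    ∀ r, (univ.filter (fun i => x.1 i = some r)).card ≤ K) with hG
  have h1 : (univ : Finset (Fin n → Fin n → Fin t)) ⊆ G.biUnion (fun x => av x.1 x.2 (prs s)) := by
    intro c _
    obtain ⟨f, a, hf, h⟩ := data_of_minor ht hK c (hcon c) hnum
    rw [mem_biUnion]
    refine ⟨(f, a), mem_filter.2 ⟨mem_univ _, hf⟩, ?_⟩
    rw [mem_av]
    intro e he
    exact h e.1 e.2 (mem_filter.1 he).2
  have h2 := (card_le_card h1).trans card_biUnion_le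
  rw [card_univ] at h2
  set W := Fintype.card (Fin n → Fin n → Fin t) with hW
  set M := t ^ (2 * K ^ 2) with hM
  set P := (prs s).card with hP
  have h3 : W * M ^ P ≤ (((s + 1) * t) ^ n * (M - 1) ^ P) * W := by
    calc W * M ^ P ≤ (∑ x ∈ G, (av x.1 x.2 (prs s)).card) * M ^ P := Nat.mul_le_mul h2 le_rfl
      _ = ∑ x ∈ G, (av x.1 x.2 (prs s)).card * M ^ P := by rw [sum_mul]
      _ ≤ ∑ x ∈ G, W * (M - 1) ^ P := by
          refine sum_le_sum fun x hx => ?_
          exact count (by omega) x.2 (mem_filter.1 hx).2 (prs s)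
            (fun e he => (mem_filter.1 he).2)
      _ = G.card * (W * (M - 1) ^ P) := by rw [sum_const, smul_eq_mul]
      _ ≤ ((s + 1) * t) ^ n * (W * (M - 1) ^ P) := by
          refine Nat.mul_le_mul ?_ le_rfl
          refine (card_le_univ _).trans ?_
          simp [mul_pow]
      _ = _ := by rw [mul_comm W, mul_assoc]
  have hWpos : 0 < W := by
    rw [hW, Fintype.card_pos_iff]
    exact ⟨fun _ _ => ⟨0, by omega⟩⟩
  have h4 : M ^ P ≤ ((s + 1) * t) ^ n * (M - 1) ^ P := by
    refine Nat.le_of_mul_le_mul_right ?_ hWpos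
    rw [mul_comm (M ^ P) W]
    exact h3
  omega

end

end Pool.Agent.T6.H40.KN
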