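import Mathlib

/-!
# Schemes and minors: definitions and the graphs of Kempe paths (helper40)
-/

set_option autoImplicit false

namespace Pool.Agent.T6.H40.KN

/-- `G` contains an `H`-scheme, the vertices of `H` being identified with vertices of `G` by `ι`:
paths `P u v` from `u` to `v` for the edges `uv` of `H` (the path of `vu` is the reversed path),
which contain no further vertices of `H`, such that edges of `H` whose paths have a common vertex
have a common end. -/
def HasScheme {V W : Type} (G : SimpleGraph V) (H : SimpleGraph W) (ι : W ↪ V) : Prop :=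
  ∃ P : ∀ u v : W, H.Adj u v → G.Walk (ι u) (ι v),
    (∀ (u v : W) (h : H.Adj u v), (P u v h).IsPath ∧ P v u h.symm = (P u v h).reverse ∧
      ∀ w, ι w ∈ (P u v h).support → w = u ∨ w = v) ∧
    ∀ A : Set (W × W), A.Nonempty → (∀ e ∈ A, H.Adj e.1 e.2) →
      (∃ x : V, ∀ e ∈ A, ∀ h : H.Adj e.1 e.2, x ∈ (P e.1 e.2 h).support) →
      ∃ u : W, ∀ e ∈ A, u = e.1 ∨ u = e.2

/-- `G` has an `H`-minor: pairwise disjoint connected branch sets `C v`, with an edge of `G`
between `C u` and `C v` for every edge `uv` of `H`. -/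
def HasMinor {V W : Type} (G : SimpleGraph V) (H : SimpleGraph W) : Prop :=
  ∃ C : W → Set V, (∀ u v, u ≠ v → Disjoint (C u) (C v)) ∧ (∀ v, (G.induce (C v)).Connected) ∧
    ∀ u v, H.Adj u v → ∃ x ∈ C u, ∃ y ∈ C v, G.Adj x y

/-- `H` is weakly contractible: every finite graph which contains an `H`-scheme has an
`H`-minor. -/
def WeaklyContractible {W : Type} (H : SimpleGraph W) : Prop :=
  ∀ (V : Type) [Finite V] (G : SimpleGraph V) (ι : W ↪ V), HasScheme G H ι → HasMinor G H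

/-- The union of the paths `v_i, (j, c j i), (i, c i j), v_j`, where `v_i = (i, none)`. -/
def gr {n t : ℕ} (c : Fin n → Fin n → Fin t) : SimpleGraph (Fin n × Option (Fin t)) where
  Adj u v := u.1 ≠ v.1 ∧ (u.2 = none ∨ u.2 = some (c u.1 v.1)) ∧
    (v.2 = none ∨ v.2 = some (c v.1 u.1)) ∧ ¬ (u.2 = none ∧ v.2 = none)
  symm := ⟨fun _ _ h => ⟨h.1.symm, h.2.2.1, h.2.1, fun hh => h.2.2.2 ⟨hh.2, hh.1⟩⟩⟩
  loopless := ⟨fun _ h => h.1 rfl⟩

/-- the vertex `v_i` -/
def ter (n t : ℕ) : Fin n ↪ Fin n × Option (Fin t) := ⟨fun i => (i, none), fun i j h => by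
  simpa using h⟩

lemma ter_apply {n t : ℕ} (i : Fin n) : ter n t i = (i, none) := rfl

lemma gr_adj {n t : ℕ} {c : Fin n → Fin n → Fin t} {u v : Fin n × Option (Fin t)} :
    (gr c).Adj u v ↔ u.1 ≠ v.1 ∧ (u.2 = none ∨ u.2 = some (c u.1 v.1)) ∧
    (v.2 = none ∨ v.2 = some (c v.1 u.1)) ∧ ¬ (u.2 = none ∧ v.2 = none) := Iff.rfl

lemma adj1 {n t : ℕ} (c : Fin n → Fin n → Fin t) {i j : Fin n} (h : i ≠ j) :
    (gr c).Adj (i, none) (j, some (c j i)) := by
  rw [gr_adj]
  simp [h]

lemma adj2 {n t : ℕ} (c : Fin n → Fin n → Fin t) {i j : Fin n} (h : i ≠ j) :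
    (gr c).Adj (j, some (c j i)) (i, some (c i j)) := by
  rw [gr_adj]
  simp [h.symm]

lemma adj3 {n t : ℕ} (c : Fin n → Fin n → Fin t) {i j : Fin n} (h : i ≠ j) :
    (gr c).Adj (i, some (c i j)) (j, none) := by
  rw [gr_adj]
  simp [h]

/-- the path from `v_i` to `v_j` -/
def pa {n t : ℕ} (c : Fin n → Fin n → Fin t) {i j : Fin n} (h : i ≠ j) :
    (gr c).Walk (ter n t i) (ter n t j) :=
  SimpleGraph.Walk.cons (adj1 c h) (SimpleGraph.Walk.cons (adj2 c h)
    (SimpleGraph.Walk.cons (adj3 c h) SimpleGraph.Walk.nil))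

lemma pa_support {n t : ℕ} (c : Fin n → Fin n → Fin t) {i j : Fin n} (h : i ≠ j) :
    (pa c h).support = [(i, none), (j, some (c j i)), (i, some (c i j)), (j, none)] := rfl

theorem scheme {n t : ℕ} (c : Fin n → Fin n → Fin t) :
    HasScheme (gr c) (⊤ : SimpleGraph (Fin n)) (ter n t) := by
  refine ⟨fun i j h => pa c ((SimpleGraph.top_adj i j).1 h), ?_, ?_⟩
  · intro i j h
    have hij : i ≠ j := (SimpleGraph.top_adj i j).1 h
    refine ⟨?_, ?_, ?_⟩
    · rw [SimpleGraph.Walk.isPath_def, pa_support]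
      simp [hij, hij.symm]
    · rfl
    · intro w hw
      rw [pa_support, ter_apply] at hw
      simpa using hw
  · rintro A ⟨e₀, he₀⟩ hA ⟨x, hx⟩
    refine ⟨x.1, fun e he => ?_⟩
    have h1 := hx e he (hA e he)
    rw [pa_support] at h1
    simp only [List.mem_cons, List.not_mem_nil, or_false] at h1
    rcases h1 with h | h | h | h <;> rw [h] <;> simp

end Pool.Agent.T6.H40.KN
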