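import Pool.Agent.T6.H40.KN.Defs

/-!
# Schemes and minors: the structure of the complete minors (helper40)
-/

set_option autoImplicit false

open Finset
open scoped Classical

namespace Pool.Agent.T6.H40.KN

/-- in a connected branch set with two elements every element has a neighbour -/
lemma exists_nb {V : Type} {G : SimpleGraph V} {C : Set V} (hC : (G.induce C).Connected) {x y : V}
    (hx : x ∈ C) (hy : y ∈ C) (hxy : x ≠ y) : ∃ w ∈ C, G.Adj x w := by
  obtain ⟨p⟩ := hC.preconnected ⟨x, hx⟩ ⟨y, hy⟩
  cases p with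
  | nil => exact absurd rfl hxy
  | @cons _ w _ h _ => exact ⟨w.1, w.2, h⟩

section

variable {n t m : ℕ} {c : Fin n → Fin n → Fin t} {C : Fin m → Set (Fin n × Option (Fin t))}

/-- the branch sets as finite sets -/
noncomputable def bs (C : Fin m → Set (Fin n × Option (Fin t))) (p : Fin m) :
    Finset (Fin n × Option (Fin t)) := univ.filter (fun x => x ∈ C p)

lemma mem_bs {p : Fin m} {x : Fin n × Option (Fin t)} : x ∈ bs C p ↔ x ∈ C p := by
  simp [bs]

/-- the classes which meet a branch set -/
noncomputable def cl (C : Fin m → Set (Fin n × Option (Fin t))) (p : Fin m) : Finset (Fin n) :=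
  univ.filter (fun i => ∃ x, (i, x) ∈ C p)

lemma mem_cl {p : Fin m} {i : Fin n} : i ∈ cl C p ↔ ∃ x, (i, x) ∈ C p := by
  simp [cl]

lemma cl_card (p : Fin m) : (cl C p).card ≤ (bs C p).card := by
  have h : cl C p ⊆ (bs C p).image Prod.fst := by
    intro i hi
    obtain ⟨x, hx⟩ := mem_cl.1 hi
    exact mem_image.2 ⟨(i, x), mem_bs.2 hx, rfl⟩
  exact (card_le_card h).trans card_image_le

lemma disj (hd : ∀ u v, u ≠ v → Disjoint (C u) (C v)) {p q : Fin m}
    {x : Fin n × Option (Fin t)} (hp : x ∈ C p) (hq : x ∈ C q) : p = q := by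
  by_contra h
  exact Set.disjoint_left.1 (hd p q h) hp hq

lemma sum_bs (hd : ∀ u v, u ≠ v → Disjoint (C u) (C v)) (T : Finset (Fin m)) :
    ∑ p ∈ T, (bs C p).card ≤ n * (t + 1) := by
  have h1 : (T.biUnion (fun p => bs C p)).card = ∑ p ∈ T, (bs C p).card := by
    apply card_biUnion
    intro p _ q _ hpq
    show Disjoint (bs C p) (bs C q)
    rw [disjoint_left]
    intro x hx hx'
    exact hpq (disj hd (mem_bs.1 hx) (mem_bs.1 hx'))
  rw [← h1]
  refine (card_le_univ _).trans ?_
  simp

/-- a class with all its vertices `(i, a)` in one branch set -/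
lemma big (ht : 2 ≤ t) (hC : ∀ v, ((gr c).induce (C v)).Connected) {p : Fin m} {i : Fin n}
    (h : ∀ a, (i, some a) ∈ C p) : 2 * t ≤ (bs C p).card := by
  have hw : ∀ a : Fin t, ∃ w ∈ C p, (gr c).Adj (i, some a) w := by
    intro a
    obtain ⟨b, hb⟩ : ∃ b : Fin t, b ≠ a := by
      by_contra hcon
      push Not at hcon
      have h1 := hcon ⟨0, by omega⟩
      have h2 := hcon ⟨1, by omega⟩
      rw [← h2] at h1
      simp at h1
    exact exists_nb (hC p) (h a) (h b) (fun hh => hb (by simpa using hh.symm))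
  choose w hw1 hw2 using hw
  have hc : ∀ a, c i (w a).1 = a := by
    intro a
    have h1 : a = c i (w a).1 := by simpa using (hw2 a).2.1
    exact h1.symm
  have hi : ∀ a, i ≠ (w a).1 := fun a => (hw2 a).1
  let g : Fin t ⊕ Fin t → Fin n × Option (Fin t) := Sum.elim (fun a => (i, some a)) w
  have hg : Function.Injective g := by
    intro a b hab
    rcases a with a | a <;> rcases b with b | b
    · simp only [g, Sum.elim_inl, Prod.mk.injEq, Option.some.injEq, true_and] at hab
      rw [hab]
    · simp only [g, Sum.elim_inl, Sum.elim_inr] at hab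
      exact absurd (congrArg Prod.fst hab) (hi b)
    · simp only [g, Sum.elim_inl, Sum.elim_inr] at hab
      exact absurd (congrArg Prod.fst hab).symm (hi a)
    · simp only [g, Sum.elim_inr] at hab
      have := hc a
      rw [hab, hc b] at this
      rw [this]
  have h1 : (univ.image g) ⊆ bs C p := by
    intro x hx
    obtain ⟨a, -, rfl⟩ := mem_image.1 hx
    rw [mem_bs]
    rcases a with a | a
    · exact h a
    · exact hw1 a
  have h2 := card_le_card h1
  rw [card_image_of_injective _ hg, card_univ, Fintype.card_sum, Fintype.card_fin] at h2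
  omega

/-- the branch sets which meet a given class -/
lemma meet (hd : ∀ u v, u ≠ v → Disjoint (C u) (C v)) (i : Fin n) :
    (univ.filter (fun p : Fin m => i ∈ cl C p)).card ≤ t + 1 := by
  have h1 : ∀ p ∈ univ.filter (fun p : Fin m => i ∈ cl C p), ∃ x : Option (Fin t),
      (i, x) ∈ C p := by
    intro p hp
    rw [mem_filter] at hp
    exact mem_cl.1 hp.2
  choose! x hx using h1
  have h2 : Set.InjOn x (univ.filter (fun p : Fin m => i ∈ cl C p) : Finset (Fin m)) := by
    intro p hp q hq hpq
    have h3 := hx p hp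
    have h4 := hx q hq
    rw [hpq] at h3
    exact disj hd h3 h4
  have h3 := card_le_card_of_injOn x (s := univ.filter (fun p : Fin m => i ∈ cl C p))
    (t := univ) (fun _ _ => mem_univ _) h2
  simpa using h3

end

/-- The data of a complete minor: a partial map from the classes to `s` branch sets with small
fibres, and a vertex of every class outside the branch set of the class. -/
theorem data_of_minor {n t m K s : ℕ} (ht : 2 ≤ t) (hK : 1 ≤ K) (c : Fin n → Fin n → Fin t)
    (hmin : HasMinor (gr c) (⊤ : SimpleGraph (Fin m)))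
    (hnum : ∀ d l : ℕ, d * (2 * t) ≤ n * (t + 1) → l * (K + 1) ≤ n * (t + 1) →
      s * (K * (t + 1)) + d + l ≤ m) :
    ∃ (f : Fin n → Option (Fin s)) (a : Fin n → Fin t),
      (∀ r, (univ.filter (fun i => f i = some r)).card ≤ K) ∧
      ∀ r r' : Fin s, r < r' → ∃ i j, f i = some r ∧ f j = some r' ∧
        (c i j ≠ a i ∨ c j i ≠ a j) := by
  obtain ⟨C, hd, hC, hadj⟩ := hmin
  set D : Finset (Fin m) := univ.filter (fun p => ∃ i, ∀ a, (i, some a) ∈ C p) with hD
  set L : Finset (Fin m) := univ.filter (fun p => K < (bs C p).card) with hL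
  have hDc : D.card * (2 * t) ≤ n * (t + 1) := by
    refine le_trans ?_ (sum_bs hd D)
    rw [← smul_eq_mul, ← sum_const]
    refine sum_le_sum fun p hp => ?_
    rw [hD, mem_filter] at hp
    obtain ⟨i, hi⟩ := hp.2
    exact big ht hC hi
  have hLc : L.card * (K + 1) ≤ n * (t + 1) := by
    refine le_trans ?_ (sum_bs hd L)
    rw [← smul_eq_mul, ← sum_const]
    refine sum_le_sum fun p hp => ?_
    rw [hL, mem_filter] at hp
    exact hp.2
  have hnum' := hnum _ _ hDc hLc
  set S : Finset (Fin m) := univ \ (D ∪ L) with hS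
  have hSc : m ≤ S.card + (D.card + L.card) := by
    have h1 : (univ : Finset (Fin m)).card ≤ S.card + (D ∪ L).card := by
      rw [hS]
      have := card_sdiff_add_card (univ : Finset (Fin m)) (D ∪ L)
      have h2 : (univ : Finset (Fin m)).card ≤ (univ ∪ (D ∪ L)).card := card_le_card
        subset_union_left
      omega
    have h2 := card_union_le D L
    rw [card_univ, Fintype.card_fin] at h1
    omega
  have hSD : ∀ p ∈ S, ∀ i, ∃ a, (i, some a) ∉ C p := by
    intro p hp i
    by_contra hcon
    push Not at hcon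
    rw [hS, mem_sdiff, mem_union, not_or] at hp
    exact hp.2.1 (by rw [hD, mem_filter]; exact ⟨mem_univ _, i, hcon⟩)
  have hSL : ∀ p ∈ S, (cl C p).card ≤ K := by
    intro p hp
    rw [hS, mem_sdiff, mem_union, not_or] at hp
    have : ¬ K < (bs C p).card := fun h => hp.2.2 (by
      rw [hL, mem_filter]
      exact ⟨mem_univ _, h⟩)
    exact (cl_card p).trans (not_lt.1 this)
  -- a maximal family with disjoint sets of classes
  obtain ⟨T, hT, hTmax⟩ := exists_max_image
    (S.powerset.filter (fun T => ∀ p ∈ T, ∀ q ∈ T, p ≠ q → Disjoint (cl C p) (cl C q)))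
    Finset.card ⟨∅, by simp⟩
  rw [mem_filter, mem_powerset] at hT
  have hTS := hT.1
  have hTd := hT.2
  have hcov : ∀ p ∈ S, ∃ q ∈ T, ¬ Disjoint (cl C p) (cl C q) := by
    intro p hp
    by_contra hcon
    push Not at hcon
    have hpT : p ∉ T := by
      intro hpT
      have h1 := hcon p hpT
      rw [disjoint_self] at h1
      obtain ⟨⟨x, hx⟩⟩ := (hC p).nonempty
      have h2 : x.1 ∈ cl C p := mem_cl.2 ⟨x.2, hx⟩
      rw [h1] at h2
      simp at h2
    have h1 := hTmax (insert p T) (by
      rw [mem_filter, mem_powerset]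
      refine ⟨insert_subset hp hTS, ?_⟩
      intro q hq r hr hqr
      rw [mem_insert] at hq hr
      rcases hq with rfl | hq <;> rcases hr with rfl | hr
      · exact absurd rfl hqr
      · exact hcon r hr
      · exact (hcon q hq).symm
      · exact hTd q hq r hr hqr)
    rw [card_insert_of_notMem hpT] at h1
    omega
  have hST : S.card ≤ T.card * (K * (t + 1)) := by
    have h1 : S ⊆ T.biUnion (fun q => (cl C q).biUnion (fun i =>
        univ.filter (fun p : Fin m => i ∈ cl C p))) := by
      intro p hp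
      obtain ⟨q, hq, hpq⟩ := hcov p hp
      rw [not_disjoint_iff] at hpq
      obtain ⟨i, hi1, hi2⟩ := hpq
      simp only [mem_biUnion, mem_filter, mem_univ, true_and]
      exact ⟨q, hq, i, hi2, hi1⟩
    refine (card_le_card h1).trans (card_biUnion_le.trans ?_)
    rw [← smul_eq_mul, ← sum_const]
    refine sum_le_sum fun q hq => ?_
    refine card_biUnion_le.trans ?_
    calc ∑ i ∈ cl C q, (univ.filter (fun p : Fin m => i ∈ cl C p)).card
        ≤ ∑ i ∈ cl C q, (t + 1) := sum_le_sum fun i _ => meet hd i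
      _ = (cl C q).card * (t + 1) := by rw [sum_const, smul_eq_mul]
      _ ≤ K * (t + 1) := Nat.mul_le_mul (hSL q (hTS hq)) le_rfl
  have hsT : s ≤ T.card := by
    by_contra hcon
    push Not at hcon
    have h1 : (T.card + 1) * (K * (t + 1)) ≤ s * (K * (t + 1)) := Nat.mul_le_mul hcon le_rfl
    have h2 : 0 < K * (t + 1) := by positivity
    have h3 : (T.card + 1) * (K * (t + 1)) = T.card * (K * (t + 1)) + K * (t + 1) := by ring
    omega
  let e := T.orderEmbOfCardLe hsT
  have heT : ∀ r, e r ∈ T := fun r => T.orderEmbOfCardLe_mem hsT r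
  have hein : ∀ r r' : Fin s, e r = e r' → r = r' := fun r r' h => e.injective h
  have huniq : ∀ (i : Fin n) (r r' : Fin s), i ∈ cl C (e r) → i ∈ cl C (e r') → r = r' := by
    intro i r r' h1 h2
    by_contra hcon
    have h3 := hTd _ (heT r) _ (heT r') (fun h => hcon (hein _ _ h))
    exact disjoint_left.1 h3 h1 h2
  have hf : ∀ i : Fin n, ∃ o : Option (Fin s), ∀ r, o = some r ↔ i ∈ cl C (e r) := by
    intro i
    by_cases h : ∃ r : Fin s, i ∈ cl C (e r)
    · obtain ⟨r, hr⟩ := h
      refine ⟨some r, fun r' => ⟨fun h => ?_, fun h => ?_⟩⟩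
      · rw [Option.some.injEq] at h
        rw [← h]
        exact hr
      · rw [huniq i r r' hr h]
    · push Not at h
      exact ⟨none, fun r => ⟨fun h' => (by simp at h'), fun h' => absurd h' (h r)⟩⟩
  choose f hf using hf
  have ha : ∀ i : Fin n, ∃ a : Fin t, ∀ r, f i = some r → (i, some a) ∉ C (e r) := by
    intro i
    cases h : f i with
    | none => exact ⟨⟨0, by omega⟩, fun r hr => by simp at hr⟩
    | some r =>
      obtain ⟨a, ha⟩ := hSD (e r) (hTS (heT r)) i
      refine ⟨a, fun r' hr' => ?_⟩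
      rw [Option.some.injEq] at hr'
      rw [← hr']
      exact ha
  choose a ha using ha
  refine ⟨f, a, fun r => ?_, fun r r' hr => ?_⟩
  · refine le_trans (card_le_card ?_) (hSL (e r) (hTS (heT r)))
    intro i hi
    rw [mem_filter] at hi
    exact (hf i r).1 hi.2
  · have hne : e r ≠ e r' := fun h => hr.ne (hein _ _ h)
    obtain ⟨x, hx, y, hy, hxy⟩ := hadj (e r) (e r') ((SimpleGraph.top_adj _ _).2 hne)
    have hfx : f x.1 = some r := (hf x.1 r).2 (mem_cl.2 ⟨x.2, hx⟩)
    have hfy : f y.1 = some r' := (hf y.1 r').2 (mem_cl.2 ⟨y.2, hy⟩)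
    refine ⟨x.1, y.1, hfx, hfy, ?_⟩
    by_contra hcon
    push Not at hcon
    obtain ⟨h1, h2⟩ := hcon
    rw [gr_adj] at hxy
    obtain ⟨-, h3, h4, h5⟩ := hxy
    have h6 : x.2 = none := by
      rcases h3 with h | h
      · exact h
      · rw [h1] at h
        exact absurd (by rw [← h]; exact hx) (ha x.1 r hfx)
    have h7 : y.2 = none := by
      rcases h4 with h | h
      · exact h
      · rw [h2] at h
        exact absurd (by rw [← h]; exact hy) (ha y.1 r' hfy)
    exact h5 ⟨h6, h7⟩

end Pool.Agent.T6.H40.KN
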